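import Pool.Agent.Y294.LR.MhzFam
import Pool.Agent.Y294.LR.Fin

/-!
# Multiple Hurwitz zeta values at rational points, relative to arbitrary constants

The numbers `ζ (3), ζ (5), …` and all multiple zeta values are the values at `x = 1` of the multiple Hurwitz zeta functions

`ζ (s_1, …, s_k; x) = ∑ (m_1 + x) ^ (-s_1) ⋯ (m_k + x) ^ (-s_k)`, `m_1 > m_2 > ⋯ > m_k ≥ 0`, `s_1 ≥ 2`, `s_j ≥ 1`.

The products of these functions are linear combinations of such functions (the quasi-shuffle product). We show that at
almost all rational points there are no other relations, of bounded weight and height, and not even relations over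
`ℚ (π, ζ (3), ζ (5), …)`: let `ξ_1, …, ξ_g` be *arbitrary* complex numbers (for example the monomials of bounded degree in
`π`, `ζ (3)`, `ζ (5)`, …, or all multiple zeta values of bounded weight) and let `W` be a finite set of words, for example
all words of weight at most `N`. For all but `C T ^ ε` of the (about `T ^ 2`) rational numbers `x` of height at most `T` in
an interval `[a, b]`, `0 < a < b`, the numbers `ζ (w; x)`, `w` in `W`, satisfy no nontrivial linear relation whose
coefficients are combinations of `ξ_1, …, ξ_g` with integer coefficients of absolute value at most `T ^ A`. In particular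
(products are combinations of words) the numbers `ζ (3, x)`, `ζ (5, x)`, …, satisfy no polynomial relation of degree at most
`d` with such coefficients. The same holds for the products `ζ (w_1; x_1) ⋯ ζ (w_n; x_n)` at all but `C T ^ (2 (n - 1) + ε)`
of the `n`-tuples `x` of rational numbers.

Proof: (1) a general theorem for linear relations between the functions of an algebra `Q` of real analytic functions in
which linearly independent functions are linearly independent over `ℝ [x]`: a linear relation is turned into an algebraic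
relation between the members of a transcendence basis of `Q` by a norm (`Pool.Agent.Y294.LR.normform`), and the theorem for
algebraically independent functions and arbitrary constants of helper120 and helper890 applies (`Pool.Agent.Y890.UC`);
(2) the linear independence of the multiple Hurwitz zeta functions over `ℂ (x)` (`Pool.Agent.Y294.LR.words_indep`).
-/

set_option autoImplicit false

namespace Pool.Agent.Results.MP_a89d6d_nt.MultipleHurwitzValues

/-- Admissible words: lists `[s_k, …, s_1]` of positive integers, with `s_1 ≥ 2` (or the empty list). -/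
def Admissible : List ℕ → Prop
  | [] => True
  | [s] => 2 ≤ s
  | s :: t :: w => 1 ≤ s ∧ Admissible (t :: w)

/-- The multiple Hurwitz zeta function of the word `[s_k, …, s_1]`: the summation over the smallest index `m = m_k` is the
outer one, the other indices are `> m`. -/
noncomputable def mzeta : List ℕ → ℝ → ℝ
  | [], _ => 1
  | s :: w, x => ∑' m : ℕ, 1 / ((m : ℝ) + x) ^ s * mzeta w ((m : ℝ) + x + 1)

/-- The `n`-tuples `x` of rational numbers in `[a_j, b_j]`, with denominators at most `T`, such that the products
`ζ (w_1; x_1) ⋯ ζ (w_n; x_n)`, `w_1, …, w_n` in `W`, satisfy a linear relation whose coefficients are combinations of the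
numbers `ξ_s` with integer coefficients of absolute value at most `T ^ A` and do not all vanish. -/
def Exceptional {n g : ℕ} (W : Finset (List ℕ)) (a b : Fin n → ℝ) (A T : ℝ) (ξ : Fin g → ℂ) : Set (Fin n → ℚ) :=
  {x | (∀ j, a j ≤ x j ∧ (x j : ℝ) ≤ b j ∧ ((x j).den : ℝ) ≤ T) ∧
    ∃ c : (Fin n → W) → Fin g → ℤ, (∀ e s, |(c e s : ℝ)| ≤ T ^ A) ∧ (∃ e, ∑ s, ξ s * (c e s : ℂ) ≠ 0) ∧
      ∑ e : Fin n → W, (∑ s, ξ s * (c e s : ℂ)) * ((∏ j, mzeta (e j) (x j) : ℝ) : ℂ) = 0}

theorem adm_iff (w : List ℕ) : Admissible w ↔ Pool.Agent.Y294.LR.Adm w := by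
  induction w with
  | nil => exact Iff.rfl
  | cons s w ih =>
    rcases w with _ | ⟨t, w⟩
    · exact Iff.rfl
    · exact and_congr Iff.rfl ih

theorem mzeta_eq (w : List ℕ) : ∀ x, mzeta w x = Pool.Agent.Y294.LR.mhz w x := by
  induction w with
  | nil => intro x; rfl
  | cons s w ih =>
    intro x
    show (∑' m : ℕ, 1 / ((m : ℝ) + x) ^ s * mzeta w ((m : ℝ) + x + 1)) =
      ∑' m : ℕ, 1 / ((m : ℝ) + x) ^ s * Pool.Agent.Y294.LR.mhz w ((m : ℝ) + x + 1)
    exact tsum_congr fun m => by rw [ih]

/-- **Main result.** For every finite set `W` of admissible words, all `0 < a_j < b_j`, `A` and `ε > 0` there is `C` such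
that for all `T ≥ 1` and all complex numbers `ξ_1, …, ξ_g` there are at most `C T ^ (2 (n - 1) + ε)` exceptional
`n`-tuples. -/
theorem result (n g : ℕ) (hn : 1 ≤ n) (W : Finset (List ℕ)) (hW : ∀ w ∈ W, Admissible w) (a b : Fin n → ℝ)
    (ha : ∀ j, 0 < a j) (hab : ∀ j, a j < b j) (A ε : ℝ) (hε : 0 < ε) :
    ∃ C : ℝ, ∀ T : ℝ, 1 ≤ T → ∀ ξ : Fin g → ℂ, (Exceptional W a b A T ξ).Finite ∧
      ((Exceptional W a b A T ξ).ncard : ℝ) ≤ C * T ^ (2 * ((n : ℝ) - 1) + ε) := by
  classical
  let ι : W → Pool.Agent.Y294.LR.AW := fun w => ⟨w.1, (adm_iff w.1).1 (hW w.1 w.2)⟩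
  have hι : Function.Injective ι := by
    intro w w' h
    have h1 : (ι w).1 = (ι w').1 := congrArg Subtype.val h
    exact Subtype.ext h1
  obtain ⟨C, hC⟩ := Pool.Agent.Y294.LR.famCount (h := Fin g) hn a b hab
    (fun _ (l : Pool.Agent.Y294.LR.AW) => Pool.Agent.Y294.LR.mhz l.1)
    (fun j => Pool.Agent.Y294.LR.mhzFam (ha j) (hab j)) ι hι A ε hε
  refine ⟨C, fun T hT ξ => ?_⟩
  have hset : Exceptional W a b A T ξ = Pool.Agent.Y294.LR.ExcL a b
      (fun _ (l : Pool.Agent.Y294.LR.AW) => Pool.Agent.Y294.LR.mhz l.1) ι A T ξ := by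
    ext x
    simp only [Exceptional, Pool.Agent.Y294.LR.ExcL, Pool.Agent.Y294.LR.RelE, Set.mem_ofPred_eq, Set.mem_Icc, mzeta_eq,
      and_assoc, ι]
  rw [hset]
  exact hC T hT ξ

end Pool.Agent.Results.MP_a89d6d_nt.MultipleHurwitzValues
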