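import Pool.Agent.Y926.TW.Dist

/-!
# `c (s² / log s)^(1/3)` odd zeta values outside every rational vector space of dimension at most `c log s`

Every rational vector space `V ⊆ ℝ` of dimension `D ≤ c log s`, for instance the space of all polynomials of degree
`< D` in `π` (or in `ζ(3)`) with rational coefficients, misses at least `C^(-D) (s² / log s)^(1/3)` of the odd zeta
values `ζ(3), ζ(5), …, ζ(s)`; the same in windows `(b, s]` with `s / (b + 1)` in place of `s`. The values stay away from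
`V` in a quantitative sense: at least that many of the numbers `q ζ(j)` have, for every large `q`, a distance at least
`q^(-D (D + 2) A - 2 D - 2)` from all numbers `p₀ + p₁ v₁ + ⋯ + p_D v_D` with integers `|p_i| ≤ q^A` (`p₀` arbitrary).
Before, only the order `√s` (up to logarithms) and `D ≤ c log log s` were known.

The proof combines Dirichlet's theorem on simultaneous approximation, applied to `v_1, …, v_D`, with the vector valued
linear forms in odd zeta values of `Pool/Agent/Y926/TW/` (see `Pool/Agent/Results/MP_c2395a_nt/OddZetaTwoThirds.lean`).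
-/

set_option autoImplicit false

namespace Pool.Agent.Results.MP_a89d6d_nt.OutsideSubspacesTwoThirds

/-- **Odd zeta values outside subspaces.** Let `K ≥ 1` and `2^(132 (D + 1)) (b + 1)² K³ log (K + 1) ≤ s²`. For every
rational vector space `V ⊆ ℝ` of dimension at most `D` at least `K` of the odd `j` with `b < j ≤ s` have
`ζ(j) = ∑ 1/(n+1)^j ∉ ℚ + V`. For all real `v_1, …, v_D`, all `A` and all large `q` at least `K` of them have
`|q ζ(j) - p₀ - ∑ p_i v_i| ≥ q^(-(D (D + 2) A + 2 D + 2))` for all integers `p₀`, `p_i`, `|p_i| ≤ q^A` for `i ≥ 1`. -/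
theorem result : ∀ b K s D : ℕ, 1 ≤ K →
    (2 : ℝ) ^ (132 * (D + 1)) * ((b : ℝ) + 1) ^ 2 * (K : ℝ) ^ 3 * Real.log (K + 1) ≤ (s : ℝ) ^ 2 →
    (∀ V : Submodule ℚ ℝ, FiniteDimensional ℚ V → Module.finrank ℚ V ≤ D →
      K ≤ Set.ncard {j : ℕ | b < j ∧ j ≤ s ∧ Odd j ∧ ∀ r : ℚ, (∑' n : ℕ, 1 / ((n : ℝ) + 1) ^ j) - r ∉ V}) ∧
    ∀ (v : Fin D → ℝ) (A : ℕ), ∃ q0 : ℕ, ∀ q ≥ q0, K ≤ Set.ncard {j : ℕ | b < j ∧ j ≤ s ∧ Odd j ∧
      ∀ (p₀ : ℤ) (p : Fin D → ℤ), (∀ i, |(p i : ℝ)| ≤ (q : ℝ) ^ A) →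
        1 / (q : ℝ) ^ (D * (D + 2) * A + 2 * D + 2) ≤
          |(q : ℝ) * (∑' n : ℕ, 1 / ((n : ℝ) + 1) ^ j) - p₀ - ∑ i, (p i : ℝ) * v i|} :=
  fun _ _ _ _ hK hs => ⟨fun V hV hVD => Pool.Agent.Y926.TW.window_space hK hs V hV hVD,
    fun v A => Pool.Agent.Y926.TW.window_dist hK hs v A⟩

end Pool.Agent.Results.MP_a89d6d_nt.OutsideSubspacesTwoThirds
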