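import Pool.Agent.Y900.JT.Inst
import Pool.Agent.Y900.HY.Log
import Pool.Agent.Y124.NFPoly

/-!
# Polylogarithms, Hurwitz zeta values and values of `Γ`, `ζ` and `L` at the same algebraic points

The odd zeta values are special values of three kinds of functions: `ζ(k) = Li_k(1)`; `± ψ^(k-1)(1) = (k - 1)! ζ(k)`, where
`ψ = Γ'/Γ` (values `ζ(k, 1)` of the Hurwitz zeta function); and `ζ(3), ζ(5), …` are the values of `ζ(z), ζ(z + 2), …` at
`z = 3`. We consider all these functions together, at almost all algebraic points instead of special ones: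

* iterated primitives `I_w`, for all words `w`, of algebraic differentials `u_i(z) dz` no nontrivial combination of which
  is exact, for instance all hyperlogarithms with given singularities `a_i` (among them all multiple polylogarithms, with
  any branches and base points),
* towers of derivatives `G_c, G_c', G_c'', …` which satisfy jointly no algebraic differential equation, for instance `Γ`,
  `ψ`, `ψ'`, …, and the derivatives of all shifts `ζ(z + a_j)`, `L(χ, z + a_j)` by distinct real numbers, for all Dirichlet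
  characters modulo `q`.

For all but `C T ^ ε N ^ (n - 1)` of the `N ^ n` tuples of `N` points of height at most `T` of a number field, uniformly in
the number fields of degree at most `m` and in an arbitrary finite system of complex constants `ξ_1, …, ξ_g` (for instance
the monomials of bounded degree in `π`, `ζ(3)`, `ζ(5)`, …), there is no relation of bounded degree, even an approximate
one, between the values of all these functions at the points, other than the shuffle relations.

Proof. The iterated primitives, normalised at a base point, are polynomials in finitely many algebraically independent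
functions (Hall areas of the shuffle algebra). They generate together with `z` a field of finite transcendence degree
whose algebraic closure is closed under differentiation; a tower can not become dependent over such a field, since
otherwise the transcendence degrees would grow too slowly under differentiation. The independence of `Γ`, its derivatives
and the derivatives of the shifts of L-functions is a theorem of helper922. Then the general theorem of helper124 applies.
-/

set_option autoImplicit false

open NumberField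
open scoped Topology

namespace Pool.Agent.Results.MP_a89d6d_nt.PolylogarithmsGammaZeta

/-- `g` is an algebraic function near `p`: `P(z, g(z)) = 0` near `p` for some polynomial `P ≠ 0` in two variables. -/
def AlgebraicAt (p : ℂ) (g : ℂ → ℂ) : Prop :=
  ∃ P : MvPolynomial (Fin 2) ℂ, P ≠ 0 ∧ ∀ᶠ z in 𝓝 p, MvPolynomial.eval ![z, g z] P = 0

/-- The `I_w` are iterated primitives on the connected open set `U` of the differentials `u_i(z) dz`, which are algebraic,
and no nontrivial combination of which is the differential of an algebraic function (near `p ∈ U`). -/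
structure Family {κ : Type} [Fintype κ] (U : Set ℂ) (p : ℂ) (u : κ → ℂ → ℂ) (I : List κ → ℂ → ℂ) : Prop where
  isOpen : IsOpen U
  isPreconnected : IsPreconnected U
  mem : p ∈ U
  analytic : ∀ i, AnalyticAt ℂ (u i) p
  algebraic : ∀ i, AlgebraicAt p (u i)
  not_exact : ∀ (c : κ → ℂ) (g : ℂ → ℂ), AlgebraicAt p g →
    (∀ᶠ z in 𝓝 p, HasDerivAt g (∑ i, c i * u i z) z) → c = 0
  nil : ∀ z ∈ U, I [] z = 1
  cons : ∀ i w, ∀ z ∈ U, HasDerivAt (I (i :: w)) (u i z * I w z) z

/-- Towers of functions on `U`: the derivative of `G c k` is a nonzero multiple of `G c (k + 1)`, or of the product of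
`G c k` and `G c (k + 1)`, and all the functions `G c k` together satisfy no algebraic relation near `p`. -/
structure Towers {γ : Type} (U : Set ℂ) (p : ℂ) (G : γ → ℕ → ℂ → ℂ) : Prop where
  deriv : ∀ c k, ∃ a : ℂ, a ≠ 0 ∧ ((∀ z ∈ U, HasDerivAt (G c k) (a * G c (k + 1) z) z) ∨
    (∀ z ∈ U, HasDerivAt (G c k) (a * G c k z * G c (k + 1) z) z))
  indep : ∀ P : MvPolynomial (γ × ℕ) ℂ, (∀ᶠ z in 𝓝 p, MvPolynomial.eval (fun y => G y.1 y.2 z) P = 0) → P = 0

/-- the words of length at most `W`: a length and the letters -/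
abbrev Words (κ : Type) (W : ℕ) : Type := (r : Fin (W + 1)) × (Fin r → κ)

/-- The elements of the number field `F` with image in `L` which are quotients of two integers of `F` all of whose
conjugates have absolute value at most `T`. -/
def Points (F : Type) [Field F] [NumberField F] (ι : F →+* ℂ) (L : Set ℂ) (T : ℝ) : Set F :=
  {x | ι x ∈ L ∧ ∃ a b : 𝓞 F, b ≠ 0 ∧ (∀ φ : F →+* ℂ, ‖φ a‖ ≤ T ∧ ‖φ b‖ ≤ T) ∧ x = a / b}

/-- The function `I_w ∏ G_(c,k) ^ e_(c,k)`, product over all towers `c` and all `k < r`, for a word `w` and exponents `e`. -/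
noncomputable def fn {κ γ : Type} [Fintype γ] (I : List κ → ℂ → ℂ) (G : γ → ℕ → ℂ → ℂ) {W r d : ℕ}
    (x : Words κ W × (γ × Fin r → Fin (d + 1))) (z : ℂ) : ℂ :=
  I (List.ofFn x.1.2) z * ∏ y, G y.1 y.2 z ^ (x.2 y : ℕ)

/-- The `n`-tuples `x` of points of `F` for which there is a linear combination of the products of values
`∏_j fn_(w_j)(x_j)`, where the words have length at most `W` and the exponents are at most `d`, with coefficients of the
form `∑ ξ_s ι(c_s)`, where the `c_s` are integers of `F` all of whose conjugates have absolute value at most `T ^ A`, whose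
absolute value is at most `T ^ (-B)` times the absolute value of one of its nonzero coefficients. -/
def Exceptional {κ γ : Type} [Fintype κ] [Fintype γ] [DecidableEq γ] (I : List κ → ℂ → ℂ) (G : γ → ℕ → ℂ → ℂ)
    (W r d n : ℕ) {g : ℕ} (F : Type) [Field F] [NumberField F] (ι : F →+* ℂ) (ξ : Fin g → ℂ) (L : Set ℂ) (A B T : ℝ) :
    Set (Fin n → F) :=
  {x | (∀ j, x j ∈ Points F ι L T) ∧ ∃ c : (Fin n → Words κ W × (γ × Fin r → Fin (d + 1))) → Fin g → 𝓞 F,
    (∀ w s (φ : F →+* ℂ), ‖φ (c w s)‖ ≤ T ^ A) ∧ ∃ w₀, ∑ s, ξ s * ι (c w₀ s) ≠ 0 ∧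
      ‖∑ w, (∑ s, ξ s * ι (c w s)) * ∏ j, fn I G (w j) (ι (x j))‖ ≤ T ^ (-B) * ‖∑ s, ξ s * ι (c w₀ s)‖}

/-- The towers `Γ, ψ, ψ', ψ'', …` and, for all Dirichlet characters `χ` modulo `q` and all `j`,
`L(χ, z + a_j), L'(χ, z + a_j), …`. For `q = 1` the latter are the functions `ζ^(k)(z + a_j)`. -/
noncomputable def gammaL {q r : ℕ} [NeZero q] (a : Fin r → ℝ) (c : Option (DirichletCharacter ℂ q × Fin r)) (k : ℕ)
    (z : ℂ) : ℂ :=
  match c, k with
  | none, 0 => Complex.Gamma z
  | none, k + 1 => iteratedDeriv k Complex.digamma z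
  | some y, k => iteratedDeriv k (DirichletCharacter.LFunction y.1) (z + a y.2)

/-- words as lists -/
def wE (κ : Type) [Fintype κ] [DecidableEq κ] (W : ℕ) : Words κ W ≃ Pool.Agent.Y900.HY.Wd κ W where
  toFun x := ⟨List.ofFn x.2, by
    rw [Pool.Agent.Y119.UP.mem_wd, List.length_ofFn]
    exact Nat.lt_succ_iff.1 x.1.2⟩
  invFun w := ⟨⟨w.1.length, Nat.lt_succ_iff.2 ((Pool.Agent.Y119.UP.mem_wd _ _).1 w.2)⟩, w.1.get⟩
  left_inv x := by
    obtain ⟨⟨l, hl⟩, f⟩ := x
    have h1 := (List.equivSigmaTuple (α := κ)).right_inv ⟨l, f⟩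
    simp only [List.equivSigmaTuple] at h1
    rw [Sigma.mk.injEq] at h1
    refine Sigma.ext (Fin.ext h1.1) ?_
    exact h1.2
  right_inv w := Subtype.ext (List.ofFn_get w.1)

/-- **Main result.** 1. Let the differentials `u_i dz` and the functions `I_w` be a family on `U`, let the functions `G c k`
be towers on `U`, and let `L` be a compact subset of `U`. For all `m`, `n`, `W`, `r`, `d`, `g`, `A` and `ε > 0` there are
`B`, `C`, `T₀` such that for every number field `F` of degree at most `m`, every embedding of `F` in `ℂ`, all complex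
numbers `ξ_1, …, ξ_g` and all `T ≥ T₀` the number of exceptional `n`-tuples is at most `C T^ε N^(n - 1)`, where `N` is the
number of points. 2. For distinct complex numbers `a_i` outside `U` the forms `dz / (z - a_i)` and any iterated primitives
of them on `U` form a family. 3. For distinct real numbers `a_j` the functions `gammaL` are towers on every set `U` which
contains none of the numbers `0, -1, -2, …` and `1 - a_j`. -/
theorem result :
    (∀ (κ γ : Type) [Fintype κ] [Fintype γ] [DecidableEq γ] [Nonempty γ] (U : Set ℂ) (p : ℂ) (u : κ → ℂ → ℂ)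
      (I : List κ → ℂ → ℂ) (G : γ → ℕ → ℂ → ℂ), Family U p u I → Towers U p G →
      ∀ L : Set ℂ, IsCompact L → L ⊆ U → ∀ (m n W r d g : ℕ) (A ε : ℝ), 0 < ε →
      ∃ B C T₀ : ℝ, ∀ (F : Type) [Field F] [NumberField F], Module.finrank ℚ F ≤ m → ∀ (ι : F →+* ℂ) (ξ : Fin g → ℂ)
        (T : ℝ), T₀ ≤ T → (Exceptional I G W r d n F ι ξ L A B T).Finite ∧
          ((Exceptional I G W r d n F ι ξ L A B T).ncard : ℝ) ≤ C * T ^ ε * ((Points F ι L T).ncard : ℝ) ^ (n - 1)) ∧
    (∀ (κ : Type) [Fintype κ] (a : κ → ℂ), Function.Injective a → ∀ (U : Set ℂ), IsOpen U → IsPreconnected U →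
      (∀ i, a i ∉ U) → ∀ p ∈ U, ∀ I : List κ → ℂ → ℂ, (∀ z ∈ U, I [] z = 1) →
      (∀ i w, ∀ z ∈ U, HasDerivAt (I (i :: w)) (1 / (z - a i) * I w z) z) →
      Family U p (fun i z => 1 / (z - a i)) I) ∧
    (∀ (q r : ℕ) [NeZero q] (a : Fin r → ℝ), Function.Injective a → ∀ U : Set ℂ,
      (∀ z ∈ U, (∀ k : ℕ, z ≠ -k) ∧ ∀ j, z ≠ 1 - a j) → ∀ p ∈ U, Towers U p (gammaL (q := q) a)) := by
  classical
  refine ⟨?_, ?_, ?_⟩
  · intro κ γ _ _ _ _ U p u I G hI hG L hL hLU m n W r d g A ε hε
    obtain ⟨B, C, T₀, hC, hT₀, H⟩ := Pool.Agent.Y900.JT.main_joint (h := Fin g) hI.isOpen hI.isPreconnected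
      ⟨hI.nil, hI.cons⟩ hI.mem ⟨hI.analytic, hI.algebraic, hI.not_exact⟩ ⟨hG.deriv, hG.indep⟩ hL hLU m n W r d A ε hε
    refine ⟨B, C, T₀, fun F _ _ hF ι ξ T hT => ?_⟩
    have hT0 : 0 ≤ T := by linarith
    have hP : Points F ι L T = {x : F | Pool.Agent.Y120.HtLe F T x ∧ ι x ∈ L} := by
      ext x
      constructor
      · rintro ⟨h1, a, b, hb, hab, hx⟩
        exact ⟨⟨a, b, hb, Pool.Agent.Y120.house_le F hT0 fun φ => (hab φ).1,
          Pool.Agent.Y120.house_le F hT0 fun φ => (hab φ).2, hx⟩, h1⟩
      · rintro ⟨⟨a, b, hb, ha, hb', hx⟩, h1⟩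
        exact ⟨h1, a, b, hb, fun φ => ⟨(Pool.Agent.Y120.house_ge F _ φ).trans ha,
          (Pool.Agent.Y120.house_ge F _ φ).trans hb'⟩, hx⟩
    let e : Words κ W × (γ × Fin r → Fin (d + 1)) ≃ Pool.Agent.Y900.HY.Wd κ W × (γ × Fin r → Fin (d + 1)) :=
      Equiv.prodCongr (wE κ W) (Equiv.refl _)
    have hE := H F hF ι ξ T hT (Exceptional I G W r d n F ι ξ L A B T) (by
      rintro x ⟨hx, c, hc, w₀, hw₀, hs⟩
      refine ⟨fun j => ?_, fun w s => c (fun j => e.symm (w j)) s, fun w s φ => hc _ s φ, fun j => e (w₀ j), ?_, ?_⟩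
      · have h1 := hx j
        rw [hP] at h1
        exact h1
      · simp only [Equiv.symm_apply_apply]
        exact hw₀
      · simp only [Equiv.symm_apply_apply]
        refine le_trans (le_of_eq ?_) hs
        congr 1
        rw [← (Equiv.arrowCongr (Equiv.refl (Fin n)) e).sum_comp]
        refine Finset.sum_congr rfl fun w _ => ?_
        simp only [Equiv.arrowCongr_apply, Equiv.coe_refl, Equiv.refl_symm, Function.comp_apply, id_eq,
          Equiv.symm_apply_apply]
        rfl)
    rw [hP]
    exact hE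
  · intro κ _ a ha U hU hUc haU p hp I hI0 hI
    have h := Pool.Agent.Y900.HY.good_log a ha p (fun i h => haU i (h ▸ hp))
    exact ⟨hU, hUc, hp, h.an, h.alg, h.prim, hI0, hI⟩
  · intro q r _ a ha U hU p hp
    have hUd : U ⊆ Pool.Agent.Y900.JT.dom a := fun z hz =>
      ⟨(hU z hz).1, fun j hj => (hU z hz).2 j (by rw [← hj]; ring)⟩
    have h := Pool.Agent.Y900.JT.gz_towers (q := q) ha hUd hp
    have he : gammaL (q := q) a = Pool.Agent.Y900.JT.gz a := by
      funext c k z
      rcases c with _ | y
      · rcases k with _ | k <;> rfl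
      · rfl
    rw [he]
    exact ⟨h.deriv, h.indep⟩

end Pool.Agent.Results.MP_a89d6d_nt.PolylogarithmsGammaZeta
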