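import Pool.Agent.Y918.QC.Zeta

/-!
# Random subset sums of odd zeta values satisfy no relations of bounded degree

For all `k`, `D`, `N` there is a `c > 0` such that for all large `s`, all rational vector spaces
`W ⊆ ℂ` of dimension at most `N` (for example the space generated by `1, π, …, π ^ (N - 1)`) and all
`y ∈ ℂ ^ k` the following holds for all but a proportion `s ^ (-c)` of the `k`-tuples of subsets
`S j` of the odd integers between `3` and `s`: the numbers `y j + ∑ i ∈ S j, ζ(i)` satisfy no nonzero
polynomial relation of degree at most `D` in every variable with coefficients in `W`.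

The proof combines the theorem of the starting files on odd zeta values outside subspaces of small
dimension (`Pool/Agent/Results/MP_a89d6d_nt/OutsideSubspaces.lean`) with a new grid theorem
(`Pool/Agent/Y918/QC/Cube.lean`): for all `D`, `N` there are `G`, `B` such that for every rational
space `W` of dimension at most `N` and `G` families of `B` rationally independent numbers some sum
of `z₀` and of at most one number of every family is a root of no nonzero polynomial of degree at
most `D` with coefficients in `W`. It uses specialisations at algebraic points which are twisted by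
well-chosen automorphisms of `ℚ̄`, and the Littlewood-Offord bound of Erdős.
-/

set_option autoImplicit false

namespace Pool.Agent.Results.MP_a89d6d_nt.SubsetSums

/-- The odd integers from `3` to `s`. -/
def oddUpTo (s : ℕ) : Finset ℕ := (Finset.Icc 3 s).filter (fun i => Odd i)

/-- The numbers `z 0, …, z (k - 1)` satisfy a nonzero polynomial relation of degree at most `D` in
every variable with coefficients in the rational vector space `W`. -/
def Related (W : Submodule ℚ ℂ) (D : ℕ) {k : ℕ} (z : Fin k → ℂ) : Prop :=
  ∃ p : MvPolynomial (Fin k) ℂ, p ≠ 0 ∧ (∀ m, p.coeff m ∈ W) ∧ (∀ j, p.degreeOf j ≤ D) ∧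
    MvPolynomial.eval z p = 0

open Classical in
/-- **Random subset sums of odd zeta values satisfy no relations of bounded degree.** -/
theorem result (k D N : ℕ) : ∃ c : ℝ, 0 < c ∧ ∃ s₀ : ℕ, ∀ s ≥ s₀,
    ∀ W : Submodule ℚ ℂ, Module.Finite ℚ W → Module.finrank ℚ W ≤ N → ∀ y : Fin k → ℂ,
    (((Fintype.piFinset fun _ : Fin k => (oddUpTo s).powerset).filter
      (fun S => Related W D (fun j => y j + ∑ i ∈ S j, riemannZeta ((i : ℕ) : ℂ)))).card : ℝ) ≤
      (s : ℝ) ^ (-c) * 2 ^ (k * (oddUpTo s).card) :=
  Pool.Agent.Y918.QC.zeta_subsets k D N

end Pool.Agent.Results.MP_a89d6d_nt.SubsetSums
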